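import Pool.Agent.N332.SK.Defs5
import Pool.Agent.N521.LS.Main3

set_option autoImplicit false

/-! KT13: main theorem for `k = 5` -/

namespace Pool.Agent.N521.LS

open Finset Pool.Agent.H384R3.SPk Pool.Agent.N356.SP Pool.Agent.N332.SK

/-- KT12 -/
def HReal5 : Prop := ∀ {n : ℕ} (_hn : 5 ≤ n) {b : ℝ} (_hb : (n : ℝ) ^ b = c5),
  RealOK n b B5 (13 / 50)

theorem c5_pos : 0 < c5 := Real.rpow_pos_of_pos (by norm_num) _

theorem c5_pow5 : c5 ^ 5 = 52488 / 7 := by
  unfold c5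
  rw [← Real.rpow_natCast, ← Real.rpow_mul (by norm_num)]
  norm_num

theorem one_lt_c5 : 1 < c5 := by
  unfold c5
  exact Real.one_lt_rpow (by norm_num) (by norm_num)

/-- one class of positive integers -/
theorem mono_pos5 (main_gen : HMain) (splitOK5 : SplitOK 5 B5 (13 / 50)) (realOK5 : HReal5)
    (S_pow : HPow) (one_le_S : HOne) {n : ℕ} (hn : 5 ≤ n) {β : ℝ} (hβ : 52488 / 7 ≤ (n : ℝ) ^ β)
    (B : Finset ℤ) (hB : B.Nonempty) (hBp : ∀ b ∈ B, 0 < b) (hM : Mono B) :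
    (B.card : ℝ) ^ (5 + β) ≤
      ((sumset 5 B).card : ℝ) * ((prodset fun _ : Fin n => B).card : ℝ) ^ β := by
  have hn3 : (5:ℝ) ≤ n := by exact_mod_cast hn
  have hn0 : (0:ℝ) < n := by linarith
  have hlog : 0 < Real.log n := Real.log_pos (by linarith)
  have hlc : 0 < Real.log c5 := Real.log_pos one_lt_c5
  obtain ⟨b, hb⟩ : ∃ b, b = Real.log c5 / Real.log n := ⟨_, rfl⟩
  have hb0 : 0 < b := by rw [hb]; positivity
  have hnb : (n : ℝ) ^ b = c5 := by
    rw [Real.rpow_def_of_pos hn0, hb, mul_div_cancel₀ _ hlog.ne', Real.exp_log c5_pos]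
  have hn5b : (n : ℝ) ^ (5 * b) = 52488 / 7 := by
    rw [mul_comm, Real.rpow_mul hn0.le, hnb]
    have := c5_pow5
    rw [← this, ← Real.rpow_natCast]
    norm_num
  have hle : 5 * b ≤ β := by
    rw [← hn5b] at hβ
    exact (Real.rpow_le_rpow_left_iff (by linarith)).1 hβ
  have hS1 : 1 ≤ S 5 B := one_le_S (by norm_num) hB hBp
  have hS0 : 0 < S 5 B := by linarith
  have hcard : (1:ℝ) ≤ B.card := by exact_mod_cast hB.card_pos
  have hcard0 : (0:ℝ) < B.card := by linarith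
  have hP : (B.card : ℝ) ≤ (prodset fun _ : Fin n => B).card := by
    exact_mod_cast card_le_prodset (by omega) (fun _ => B) (fun _ => hB) (fun _ => hBp) ⟨0, by omega⟩
  have hm := main_gen (k := 5) (n := n) (by norm_num) (by omega) hb0 (by norm_num) splitOK5
    (realOK5 hn hnb) (fun _ => B) (fun _ => hB) (fun _ => hBp) (fun _ => hM)
  obtain ⟨P, hPd⟩ : ∃ P : ℝ, P = ((prodset fun _ : Fin n => B).card : ℝ) := ⟨_, rfl⟩
  rw [← hPd] at hm hP ⊢
  have hP1 : 1 ≤ P := hcard.trans hP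
  have hP0 : 0 < P := by linarith
  rw [Finset.prod_const, Finset.card_univ, Fintype.card_fin] at hm
  have hx0 : 0 ≤ (B.card : ℝ) ^ (1 + b) / S 5 B ^ 2 := by positivity
  rw [← Real.rpow_natCast, ← Real.rpow_mul hx0] at hm
  have e1 : 1 / ((n : ℝ) * b) * n = 1 / b := by field_simp
  rw [e1] at hm
  have h2 := Real.rpow_le_rpow (Real.rpow_nonneg hx0 _) hm hb0.le
  rw [← Real.rpow_mul hx0, one_div_mul_cancel hb0.ne', Real.rpow_one,
    div_le_iff₀ (by positivity)] at h2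
  have h3 := pow_le_pow_left₀ (by positivity) h2 5
  have e2 : ((B.card : ℝ) ^ (1 + b)) ^ 5 = (B.card : ℝ) ^ (5 + 5 * b) := by
    rw [← Real.rpow_natCast, ← Real.rpow_mul hcard0.le]
    congr 1
    push_cast
    ring
  have e3 : (P ^ b * S 5 B ^ 2) ^ 5 = S 5 B ^ (2 * 5) * P ^ (5 * b) := by
    have : P ^ (5 * b) = (P ^ b) ^ 5 := by
      rw [← Real.rpow_natCast, ← Real.rpow_mul hP0.le]
      congr 1
      push_cast
      ring
    rw [this]
    ring
  rw [e2, e3] at h3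
  have h4 := S_pow (k := 5) (by norm_num) hB hBp
  have h5 : (B.card : ℝ) ^ (5 + 5 * b) ≤ ((sumset 5 B).card : ℝ) * P ^ (5 * b) :=
    h3.trans (mul_le_mul_of_nonneg_right h4 (by positivity))
  have h6 : (B.card : ℝ) ^ (β - 5 * b) ≤ P ^ (β - 5 * b) :=
    Real.rpow_le_rpow hcard0.le hP (by linarith)
  have e4 : (B.card : ℝ) ^ (5 + β) = (B.card : ℝ) ^ (5 + 5 * b) * (B.card : ℝ) ^ (β - 5 * b) := by
    rw [← Real.rpow_add hcard0]
    congr 1
    ring
  have e5 : P ^ β = P ^ (5 * b) * P ^ (β - 5 * b) := by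
    rw [← Real.rpow_add hP0]
    congr 1
    ring
  rw [e4, e5]
  calc _ ≤ (((sumset 5 B).card : ℝ) * P ^ (5 * b)) * P ^ (β - 5 * b) :=
        mul_le_mul h5 h6 (by positivity) (by positivity)
    _ = _ := by ring

theorem beta_pos5 {n : ℕ} (hn : 5 ≤ n) {β : ℝ} (hβ : 52488 / 7 ≤ (n : ℝ) ^ β) : 0 < β := by
  by_contra h
  push Not at h
  have hn1 : (1:ℝ) ≤ n := by exact_mod_cast (by omega : 1 ≤ n)
  have := Real.rpow_le_one_of_one_le_of_nonpos hn1 h
  linarith

/-- reduction to one class of positive integers -/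
theorem core5 (main_gen : HMain) (splitOK5 : SplitOK 5 B5 (13 / 50)) (realOK5 : HReal5)
    (exists_mono : HMono) (S_pow : HPow) (one_le_S : HOne) : ∃ K : ℝ, 1 ≤ K ∧
      ∀ A : Finset ℤ, A.Nonempty → A ≠ {0} → ∃ B : Finset ℤ, B.Nonempty ∧ (∀ b ∈ B, 0 < b) ∧
      (∀ k : ℕ, (sumset k B).card ≤ (sumset k A).card) ∧
      (∀ n : ℕ, (prodset fun _ : Fin n => B).card ≤ (prodset fun _ : Fin n => A).card) ∧
      ∀ n : ℕ, 5 ≤ n → ∀ β : ℝ, 52488 / 7 ≤ (n : ℝ) ^ β → (A.card : ℝ) ^ (5 + β) ≤ K ^ (5 + β) *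
        (((sumset 5 B).card : ℝ) * ((prodset fun _ : Fin n => B).card : ℝ) ^ β) := by
  obtain ⟨K, hK0, hK⟩ := exists_mono
  have hK1 : (1:ℝ) ≤ K := by exact_mod_cast hK0
  refine ⟨3 * K, by linarith, ?_⟩
  intro A hA h0
  obtain ⟨D, hD, hDp, hAD, hs, hp⟩ := Pool.Agent.H201R3.SPk.taskG A hA h0
  obtain ⟨B, hBD, hB, hM, hDB⟩ := hK D hD hDp
  refine ⟨B, hB, fun b hb => hDp b (hBD hb), fun k => ?_, fun n => ?_, ?_⟩
  · exact (Finset.card_le_card (Pool.Agent.H201R3.SPk.sumset_mono hBD k)).trans (hs k)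
  · exact (Finset.card_le_card (Pool.Agent.H201R3.SPk.prodset_mono hBD n)).trans (hp n)
  intro n hn β hβ
  have hβ0 := beta_pos5 hn hβ
  have hm := mono_pos5 main_gen splitOK5 realOK5 S_pow one_le_S hn hβ B hB
    (fun b hb => hDp b (hBD hb)) hM
  have h1 : (A.card : ℝ) ≤ 3 * K * B.card := by
    have : A.card ≤ 3 * K * B.card := by nlinarith
    exact_mod_cast this
  have h2 : (A.card : ℝ) ^ (5 + β) ≤ (3 * K * B.card) ^ (5 + β) :=
    Real.rpow_le_rpow (by positivity) h1 (by positivity)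
  rw [Real.mul_rpow (by positivity) (by positivity)] at h2
  exact h2.trans (mul_le_mul_of_nonneg_left hm (by positivity))

/-- KT13, first part -/
theorem main5 (main_gen : HMain) (splitOK5 : SplitOK 5 B5 (13 / 50)) (realOK5 : HReal5)
    (exists_mono : HMono) (S_pow : HPow) (one_le_S : HOne) :
    ∃ K : ℝ, 1 ≤ K ∧ ∀ n : ℕ, 5 ≤ n → ∀ β : ℝ, 52488 / 7 ≤ (n : ℝ) ^ β →
    ∀ A : Finset ℤ, A.Nonempty →
      (A.card : ℝ) ^ (5 + β) ≤ K ^ (5 + β) *
        (((sumset 5 A).card : ℝ) * ((prodset fun _ : Fin n => A).card : ℝ) ^ β) := by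
  obtain ⟨K, hK1, hK⟩ := core5 main_gen splitOK5 realOK5 exists_mono S_pow one_le_S
  refine ⟨K, hK1, ?_⟩
  intro n hn β hβ A hA
  have hβ0 := beta_pos5 hn hβ
  by_cases h0 : A = {0}
  · have h1 : (1:ℝ) ≤ (sumset 5 A).card := by exact_mod_cast card_pos_sum 5 hA
    have h2 : (1:ℝ) ≤ (prodset fun _ : Fin n => A).card := by exact_mod_cast card_pos_prod n hA
    have h3 : (1:ℝ) ≤ ((prodset fun _ : Fin n => A).card : ℝ) ^ β :=
      Real.one_le_rpow h2 hβ0.le
    have h4 : (1:ℝ) ≤ K ^ (5 + β) := Real.one_le_rpow hK1 (by positivity)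
    have h5 : (A.card : ℝ) ^ (5 + β) = 1 := by
      rw [h0, Finset.card_singleton, Nat.cast_one, Real.one_rpow]
    rw [h5]
    exact one_le_mul_of_one_le_of_one_le h4 (one_le_mul_of_one_le_of_one_le h1 h3)
  · obtain ⟨B, -, -, hs, hp, hB⟩ := hK A hA h0
    refine (hB n hn β hβ).trans (mul_le_mul_of_nonneg_left ?_ (by positivity))
    have h3 : ((sumset 5 B).card : ℝ) ≤ (sumset 5 A).card := by exact_mod_cast hs 5
    have h4 : ((prodset fun _ : Fin n => B).card : ℝ) ≤ (prodset fun _ : Fin n => A).card := by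
      exact_mod_cast hp n
    exact mul_le_mul h3 (Real.rpow_le_rpow (by positivity) h4 hβ0.le) (by positivity)
      (by positivity)

/-- KT13, second part (LS21) -/
theorem max5 (main_gen : HMain) (splitOK5 : SplitOK 5 B5 (13 / 50)) (realOK5 : HReal5)
    (exists_mono : HMono) (S_pow : HPow) (one_le_S : HOne) :
    ∃ K : ℝ, 1 ≤ K ∧ ∀ N : ℕ, 5 ≤ N → ∀ A : Finset ℤ, A.Nonempty →
    ((A.card : ℝ) / K) ^ ((5 * Real.log N + Real.log (52488 / 7)) / (Real.log N + Real.log (52488 / 7))) ≤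
      max ((sumset N A).card : ℝ) ((prodset fun _ : Fin N => A).card : ℝ) := by
  obtain ⟨K, hK1, hK⟩ := core5 main_gen splitOK5 realOK5 exists_mono S_pow one_le_S
  have hK0 : 0 < K := by linarith
  refine ⟨K, hK1, ?_⟩
  intro n hn A hA
  have hn3 : (5:ℝ) ≤ n := by exact_mod_cast hn
  have hn0 : (0:ℝ) < n := by linarith
  have hlog : 0 < Real.log n := Real.log_pos (by linarith)
  have hlk : 0 < Real.log (52488 / 7) := Real.log_pos (by norm_num)
  obtain ⟨β, hβ⟩ : ∃ β, β = Real.log (52488 / 7) / Real.log n := ⟨_, rfl⟩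
  have hβ0 : 0 < β := by rw [hβ]; positivity
  have hcond : 52488 / 7 ≤ (n : ℝ) ^ β := by
    rw [Real.rpow_def_of_pos hn0, hβ, mul_div_cancel₀ _ hlog.ne', Real.exp_log (by norm_num)]
  obtain ⟨X, hX⟩ : ∃ X : ℝ, X = max ((sumset n A).card : ℝ)
    ((prodset fun _ : Fin n => A).card : ℝ) := ⟨_, rfl⟩
  rw [← hX]
  have hX1 : (1:ℝ) ≤ X := by
    rw [hX]
    exact le_max_of_le_left (by exact_mod_cast card_pos_sum n hA)
  have key : (A.card : ℝ) ^ (5 + β) ≤ K ^ (5 + β) * X ^ (1 + β) := by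
    by_cases h0 : A = {0}
    · have h4 : (1:ℝ) ≤ K ^ (5 + β) := Real.one_le_rpow hK1 (by positivity)
      have h5 : (A.card : ℝ) ^ (5 + β) = 1 := by
        rw [h0, Finset.card_singleton, Nat.cast_one, Real.one_rpow]
      rw [h5]
      exact one_le_mul_of_one_le_of_one_le h4 (Real.one_le_rpow hX1 (by positivity))
    · obtain ⟨B, hBn, hBp, hs, hp, hB⟩ := hK A hA h0
      refine (hB n hn β hcond).trans (mul_le_mul_of_nonneg_left ?_ (by positivity))
      have h3 : ((sumset 5 B).card : ℝ) ≤ X := by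
        rw [hX]
        refine le_trans ?_ (le_max_left _ _)
        exact_mod_cast ((Pool.Agent.H449R3.SPkH.taskH B hBn hBp 5 n hn).1.trans (hs n))
      have h4 : ((prodset fun _ : Fin n => B).card : ℝ) ≤ X := by
        rw [hX]
        refine le_trans ?_ (le_max_right _ _)
        exact_mod_cast hp n
      calc _ ≤ X * X ^ β :=
            mul_le_mul h3 (Real.rpow_le_rpow (by positivity) h4 hβ0.le) (by positivity)
              (by linarith)
        _ = _ := by rw [Real.rpow_add (by linarith), Real.rpow_one]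
  have hden : 0 < 1 + β := by positivity
  have hX0 : 0 ≤ X := by linarith
  have h9 : ((A.card : ℝ) / K) ^ (5 + β) ≤ X ^ (1 + β) := by
    rw [Real.div_rpow (by positivity) hK0.le, div_le_iff₀ (by positivity),
      mul_comm (X ^ (1 + β))]
    exact key
  have h10 := Real.rpow_le_rpow (by positivity) h9 (show (0:ℝ) ≤ 1 / (1 + β) by positivity)
  rw [← Real.rpow_mul (by positivity), ← Real.rpow_mul hX0, mul_one_div_cancel hden.ne',
    Real.rpow_one] at h10
  have e3 : (5 + β) * (1 / (1 + β)) =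
      (5 * Real.log n + Real.log (52488 / 7)) / (Real.log n + Real.log (52488 / 7)) := by
    rw [hβ]
    field_simp
  rwa [e3] at h10

end Pool.Agent.N521.LS
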