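import Pool.Agent.N356.SP.Defs4
import Pool.Agent.N521.LS.SplitOK

set_option autoImplicit false

/-! KS15: splitting at a prime, `k = 4` -/

namespace Pool.Agent.N521.LS

open Finset Pool.Agent.H384R3.SPk Pool.Agent.N356.SP

theorem B4_pos {t : ℝ} : 0 < 1 + 4 * c4 * t ^ 2 + 97 * t ^ 4 + 50 * t ^ 6 := by
  have h1 : 0 < c4 := Real.rpow_pos_of_pos (by norm_num) _
  positivity

theorem B4_pow (t : ℝ) : B4 t ^ (2 * 4) = 1 + 4 * c4 * t ^ 2 + 97 * t ^ 4 + 50 * t ^ 6 := by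
  unfold B4
  rw [← Real.rpow_natCast, ← Real.rpow_mul B4_pos.le]
  norm_num

theorem splitOK4
    (two_block4 : ∀ {m : ℕ} {C : Finset (ZMod m)} {θ : ZMod m → ZMod m → ℝ} {g f : ℤ →₀ ℝ}
      (_h : GoodC C θ) (_hg0 : ∀ n, 0 ≤ g n) (_hf0 : ∀ n, 0 ≤ f n)
      (_hg : ∀ n ∈ g.support, ((n : ℤ) : ZMod m) = 0)
      (_hf : ∀ n ∈ f.support, ((n : ℤ) : ZMod m) ∈ C) (_hG : Mc 4 g ≤ 70) (_hF : Mc 4 f ≤ 70)
      {t : ℝ} (_ht0 : 0 ≤ t) (_ht1 : t ^ 2 ≤ 3 / 25),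
      Mc 4 (g + t • f) ≤ 70 * (1 + 4 * c4 * t ^ 2 + 97 * t ^ 4 + 50 * t ^ 6))
    (good_th : ∀ {Γ : Type} [AddCommGroup Γ] {C : Finset Γ} (_hneg : ∀ s ∈ C, -s ∈ C)
      (_h8 : ∀ s ∈ C, ∀ k : ℕ, 0 < k → k ≤ 8 → k • s ≠ 0) (_h2 : ∀ x : Γ, x = -x → x = 0),
      GoodC C (th : Γ → Γ → ℝ))
    (good_small : ∀ {Γ : Type} [AddCommGroup Γ] [DecidableEq Γ] {c : Γ}
      (_h8 : ∀ k : ℕ, 0 < k → k ≤ 8 → k • c ≠ 0),
      GoodC ({c, -c} : Finset Γ) (fun _ _ => (0:ℝ)))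
    (S_comb : ∀ {k : ℕ} (_hk : 1 ≤ k) {A A₀ A' : Finset ℤ} (_hpos : ∀ a ∈ A, 0 < a)
      (_h0 : A₀ ⊆ A) (_h1 : A' ⊆ A) {t B : ℝ} (_ht : 0 ≤ t) (_hB : 0 < B)
      (_H : ∀ g f : ℤ →₀ ℝ, (∀ n, 0 ≤ g n) → (∀ n, 0 ≤ f n) → g.support ⊆ A' → f.support ⊆ A₀ →
        Mc k g ≤ ((2 * k).choose k : ℝ) → Mc k f ≤ ((2 * k).choose k : ℝ) →
        Mc k (g + t • f) ≤ ((2 * k).choose k : ℝ) * B ^ (2 * k)),
      S k A' + t * S k A₀ ≤ S k A * B) :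
    SplitOK 4 B4 (69 / 200) := by
  classical
  intro p j A A₀ A' hM hS t ht0 ht1
  obtain ⟨hp, hpos, hA₀, -, -, hun, hv0, hv1⟩ := hS
  have hc70 : (((2 * 4).choose 4 : ℕ) : ℝ) = 70 := by
    have : (2 * 4).choose 4 = 70 := by decide
    rw [this]; norm_num
  have hsub0 : A₀ ⊆ A := hun ▸ subset_union_left
  have hsub1 : A' ⊆ A := hun ▸ subset_union_right
  have ht2 : t ^ 2 ≤ 3 / 25 := by nlinarith
  refine S_comb (by norm_num) hpos hsub0 hsub1 ht0 (Real.rpow_pos_of_pos B4_pos _) ?_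
  intro g f hg0 hf0 hgs hfs hG hF
  rw [B4_pow]
  rw [hc70] at hG hF ⊢
  have hne : ∀ b ∈ A₀, b ≠ 0 := fun b hb => (hpos b (hsub0 hb)).ne'
  by_cases hp11 : 11 ≤ p
  · -- large primes
    have hg : ∀ n ∈ g.support, ((n : ℤ) : ZMod (p ^ (j + 1))) = 0 := fun n hn =>
      zero_of_val hp (hv1 n (hgs hn)) rfl
    obtain ⟨C, hC⟩ : ∃ C : Finset (ZMod (p ^ (j + 1))), C =
      A₀.image (fun b => ((b : ℤ) : ZMod (p ^ (j + 1)))) ∪
      A₀.image (fun b => -((b : ℤ) : ZMod (p ^ (j + 1)))) := ⟨_, rfl⟩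
    have hmem : ∀ s, s ∈ C ↔ ∃ b ∈ A₀, s = ((b : ℤ) : ZMod (p ^ (j + 1))) ∨
        s = -((b : ℤ) : ZMod (p ^ (j + 1))) := by
      intro s
      rw [hC, mem_union, mem_image, mem_image]
      constructor
      · rintro (⟨b, hb, rfl⟩ | ⟨b, hb, rfl⟩)
        · exact ⟨b, hb, Or.inl rfl⟩
        · exact ⟨b, hb, Or.inr rfl⟩
      · rintro ⟨b, hb, rfl | rfl⟩
        · exact Or.inl ⟨b, hb, rfl⟩
        · exact Or.inr ⟨b, hb, rfl⟩
    have hf : ∀ n ∈ f.support, ((n : ℤ) : ZMod (p ^ (j + 1))) ∈ C := fun n hn =>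
      (hmem _).2 ⟨n, hfs hn, Or.inl rfl⟩
    have hneg : ∀ s ∈ C, -s ∈ C := by
      intro s hs
      obtain ⟨b, hb, rfl | rfl⟩ := (hmem s).1 hs
      · exact (hmem _).2 ⟨b, hb, Or.inr rfl⟩
      · exact (hmem _).2 ⟨b, hb, Or.inl (neg_neg _)⟩
    have h8 : ∀ s ∈ C, ∀ k : ℕ, 0 < k → k ≤ 8 → k • s ≠ 0 := by
      intro s hs k hk0 hk8
      have hk : ¬ p ^ 1 ∣ k := by
        intro h
        have := Nat.le_of_dvd hk0 h
        rw [pow_one] at this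
        omega
      obtain ⟨b, hb, rfl | rfl⟩ := (hmem s).1 hs
      · exact nz hp (hne b hb) (hv0 b hb) hk
      · rw [smul_neg, Ne, neg_eq_zero]
        exact nz hp (hne b hb) (hv0 b hb) hk
    have h2 : ∀ x : ZMod (p ^ (j + 1)), x = -x → x = 0 := by
      intro x hx
      rcases (ZMod.neg_eq_self_iff x).1 hx.symm with h | h
      · exact h
      · exfalso
        have hodd : Odd (p ^ (j + 1)) := (hp.odd_of_ne_two (by omega)).pow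
        rw [← h] at hodd
        exact (Nat.not_odd_iff_even.2 (even_two_mul _)) hodd
    exact two_block4 (good_th hneg h8 h2) hg0 hf0 hg hf hG hF ht0 ht2
  · -- small primes
    obtain ⟨b₀, hb₀⟩ := hA₀
    have hM' := hM p hp (by omega)
    have hg : ∀ n ∈ g.support, ((n : ℤ) : ZMod (p ^ (j + 4))) = 0 := fun n hn => by
      have h1 := (hM' n (hsub1 (hgs hn)) b₀ (hsub0 hb₀)).1
      have h3 := hv1 n (hgs hn)
      rw [hv0 b₀ hb₀] at h1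
      refine zero_of_val hp ?_ rfl
      unfold Nat.ModEq at h1
      omega
    have hcl : ∀ b ∈ A₀, ((b : ℤ) : ZMod (p ^ (j + 4))) = ((b₀ : ℤ) : ZMod (p ^ (j + 4))) := by
      intro b hb
      have h1 := (hM' b (hsub0 hb) b₀ (hsub0 hb₀)).2
      rw [hv0 b hb, hv0 b₀ hb₀] at h1
      have hd : ∀ a ∈ A₀, (p : ℤ) ^ j * (a / (p : ℤ) ^ j) = a := by
        intro a ha
        have : Fact p.Prime := ⟨hp⟩
        refine Int.mul_ediv_cancel' ?_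
        have := padicValInt_dvd (p := p) a
        rwa [hv0 a ha] at this
      have h3 : (p : ℤ) ^ 4 ∣ b₀ / (p : ℤ) ^ j - b / (p : ℤ) ^ j := h1.dvd
      have h4 : (p : ℤ) ^ (j + 4) ∣ b₀ - b := by
        obtain ⟨c, hc⟩ := h3
        refine ⟨c, ?_⟩
        calc b₀ - b = (p : ℤ) ^ j * (b₀ / (p : ℤ) ^ j) - (p : ℤ) ^ j * (b / (p : ℤ) ^ j) := by
              rw [hd b₀ hb₀, hd b hb]
          _ = (p : ℤ) ^ j * (b₀ / (p : ℤ) ^ j - b / (p : ℤ) ^ j) := by ring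
          _ = _ := by rw [hc]; ring
      rw [ZMod.intCast_eq_intCast_iff_dvd_sub]
      push_cast
      exact h4
    have hf : ∀ n ∈ f.support, ((n : ℤ) : ZMod (p ^ (j + 4))) ∈
        ({((b₀ : ℤ) : ZMod (p ^ (j + 4))), -((b₀ : ℤ) : ZMod (p ^ (j + 4)))} :
          Finset (ZMod (p ^ (j + 4)))) := fun n hn => by
      rw [hcl n (hfs hn)]
      exact mem_insert_self _ _
    have h8 : ∀ k : ℕ, 0 < k → k ≤ 8 → k • ((b₀ : ℤ) : ZMod (p ^ (j + 4))) ≠ 0 := by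
      intro k hk0 hk8
      refine nz hp (hne b₀ hb₀) (hv0 b₀ hb₀) ?_
      intro h
      have h5 := Nat.le_of_dvd hk0 h
      have h6 : 2 ^ 4 ≤ p ^ 4 := Nat.pow_le_pow_left hp.two_le 4
      omega
    exact two_block4 (good_small h8) hg0 hf0 hg hf hG hF ht0 ht2

end Pool.Agent.N521.LS
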